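import Pool.Agent.helper94.PL.Spec

/-!
# Project pl2, module ESC: escape
-/

set_option autoImplicit false

open Complex Metric Set Filter Topology MeasureTheory MPS
open Pool.Agent.helper16.Multibrot

noncomputable section

namespace PLY

theorem ESC_step (n : ℕ) (c x : ℂ) (hn : 2 ≤ n) (hc : ‖c‖ ≤ 2) (hx : 4 ≤ ‖x‖) :
    2 * (‖x‖ / 2) ^ n ≤ ‖fc n c x‖ := by
  have hy : 2 ≤ ‖x‖ / 2 := by linarith
  have h1 : ‖x ^ n‖ - ‖c‖ ≤ ‖x ^ n + c‖ := by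
    have := norm_sub_le (x ^ n + c) c
    simp only [add_sub_cancel_right] at this
    linarith
  have h2 : ‖x ^ n‖ = (2:ℝ) ^ n * (‖x‖ / 2) ^ n := by
    rw [norm_pow, ← mul_pow]
    congr 1
    ring
  have h3 : (4:ℝ) ≤ (2:ℝ) ^ n := by
    calc (4:ℝ) = 2 ^ 2 := by norm_num
      _ ≤ 2 ^ n := pow_le_pow_right₀ (by norm_num) hn
  have h4 : (4:ℝ) ≤ (‖x‖ / 2) ^ n := by
    calc (4:ℝ) = 2 ^ 2 := by norm_num
      _ ≤ 2 ^ n := pow_le_pow_right₀ (by norm_num) hn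
      _ ≤ (‖x‖ / 2) ^ n := pow_le_pow_left₀ (by norm_num) hy n
  show _ ≤ ‖x ^ n + c‖
  nlinarith

theorem ESC_aux (n : ℕ) (c z : ℂ) (hn : 2 ≤ n) (hc : ‖c‖ ≤ 2) (hz : 4 ≤ ‖z‖) (j : ℕ) :
    2 * (‖z‖ / 2) ^ (n ^ j) ≤ ‖(fc n c)^[j] z‖ := by
  induction j with
  | zero => simp; linarith
  | succ j ih =>
    have hy : (2:ℝ) ≤ ‖z‖ / 2 := by linarith
    have hpos : 1 ≤ n ^ j := Nat.one_le_pow _ _ (by omega)
    have h1 : (2:ℝ) ≤ (‖z‖ / 2) ^ (n ^ j) := by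
      calc (2:ℝ) ≤ ‖z‖ / 2 := hy
        _ = (‖z‖ / 2) ^ 1 := (pow_one _).symm
        _ ≤ (‖z‖ / 2) ^ (n ^ j) := pow_le_pow_right₀ (by linarith) hpos
    have h4 : 4 ≤ ‖(fc n c)^[j] z‖ := by linarith
    have h5 := ESC_step n c _ hn hc h4
    rw [Function.iterate_succ_apply']
    refine le_trans ?_ h5
    have h6 : (‖z‖ / 2) ^ (n ^ j) ≤ ‖(fc n c)^[j] z‖ / 2 := by linarith
    have h7 : (‖z‖ / 2) ^ (n ^ (j + 1)) ≤ (‖(fc n c)^[j] z‖ / 2) ^ n := by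
      rw [pow_succ, pow_mul]
      exact pow_le_pow_left₀ (by positivity) h6 n
    linarith

/-- **ESC**. -/
theorem ESC : ESC_stmt := fun n c z j hn hc hz => ESC_aux n c z hn hc hz j

end PLY
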