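import Pool.Agent.helper23.PL.SpecE

/-!
# Project pl: (MP_70a088_an, THEOREM P1), block E: eIDX, the index of one step is at most the degree
-/

set_option autoImplicit false

open Complex Metric Set Filter Topology MeasureTheory
open Pool.Agent.helper98.ILF
open WP (it)
open HY (UD T S hd UN RM)
open PM

noncomputable section

namespace PL

theorem eIDX_J {f : Polynomial ℂ} {R δ e₀ d₀ : ℝ} {k₀ : ℕ} (hS : ST f R δ e₀ d₀ k₀) {x : ℂ}
    (hx : x ∈ JJ f) (w : ℕ) : it f w x ∈ JJ f := by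
  induction w with
  | zero => exact hx
  | succ w ih =>
    have h : it f (w + 1) x = f.eval (it f w x) := Function.iterate_succ_apply' _ _ _
    rw [h]
    exact (hS.Ji _).2 ih

theorem eIDX_dk {Ω : Set ℂ} {G : ℂ → ℂ} (hΩ : IsOpen Ω) (hG : DifferentiableOn ℂ G Ω)
    {σ : Equiv.Perm ℂ} (hσ : σ ∈ DK Ω G) {z : ℂ} (hz : z ∈ Ω) (hd : deriv G z ≠ 0) :
    σ z ∈ Ω ∧ G (σ z) = G z ∧ deriv G (σ z) ≠ 0 := by
  obtain ⟨⟨a, b, ha, h1⟩, h2, h3⟩ := hσ
  have hσz : σ z ∈ Ω := (h2 z).2 hz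
  refine ⟨hσz, h3 z hz, fun h0 => hd ?_⟩
  have hdG : HasDerivAt G (deriv G (σ z)) (σ z) :=
    (hG.differentiableAt (hΩ.mem_nhds hσz)).hasDerivAt
  have ha1 : HasDerivAt (fun ζ : ℂ => (a : ℂ) * ζ + b) (a : ℂ) z := by
    have h := ((hasDerivAt_id z).const_mul (a : ℂ)).add_const b
    simpa using h
  rw [h1] at hdG
  have hc : HasDerivAt (fun ζ : ℂ => G ((a : ℂ) * ζ + b)) (deriv G ((a : ℂ) * z + b) * a) z :=
    HasDerivAt.comp z hdG ha1
  have he : G =ᶠ[𝓝 z] fun ζ : ℂ => G ((a : ℂ) * ζ + b) := by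
    filter_upwards [hΩ.mem_nhds hz] with ζ hζ
    rw [← h1, h3 ζ hζ]
  rw [he.deriv_eq, hc.deriv, ← h1, h0, zero_mul]

theorem eIDX (hCMP : eCMP_stmt) (hBJ : eBJ_stmt) (hHUR : eHUR_stmt) (hRIG : eRIG_stmt)
    (hFIB : FIB_stmt) (hTDF : TDF_stmt) (hVCF : VCF_stmt) : eIDX_stmt := by
  intro f R δ e₀ d₀ k₀ hS x hx U H χ hFR w G G' hTL hTL' hPG hPG' σ hσ
  have hΩo : IsOpen (χ '' UD) := (hTDF _ hPG.dd).1
  obtain ⟨B, hBd, hBm, hB0, hBcv, hBG, hDK⟩ := hCMP f R δ e₀ d₀ k₀ hS x hx U H χ hFR w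
    (fun j => w j + 1) G G' hTL hTL' (Eventually.of_forall fun j => Nat.le_succ _)
  obtain ⟨z, hz, hz'⟩ := hPG'.nc
  have hpow : ∀ i : ℕ, (σ ^ i) z ∈ χ '' UD ∧ G' ((σ ^ i) z) = G' z ∧ deriv G' ((σ ^ i) z) ≠ 0 :=
    fun i => eIDX_dk hΩo hPG'.dif ((DK (χ '' UD) G').pow_mem hσ i) hz hz'
  by_cases hex : ∃ i i' : ℕ, i < i' ∧ i' ≤ f.natDegree ∧ G ((σ ^ i) z) = G ((σ ^ i') z)
  · obtain ⟨i, i', hii, hi', he⟩ := hex
    obtain ⟨τ, hτ, hτz⟩ := hFIB (χ '' UD) G hPG _ (hpow i).1 _ (hpow i').1 he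
    refine ⟨i' - i, by omega, by omega, ?_⟩
    have h1 : σ ^ (i' - i) = τ :=
      hRIG (χ '' UD) G' hPG' (σ ^ (i' - i)) ((DK (χ '' UD) G').pow_mem hσ _) τ (hDK hτ)
        ((σ ^ i) z) (hpow i).1 (hpow i).2.2 (by
          rw [hτz, ← Equiv.Perm.mul_apply, ← pow_add, Nat.sub_add_cancel hii.le])
    rw [h1]
    exact hτ
  · exfalso
    have hne : ∀ i i' : ℕ, i < i' → i' ≤ f.natDegree → G ((σ ^ i) z) ≠ G ((σ ^ i') z) :=
      fun i i' h h' he => hex ⟨i, i', h, h', he⟩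
    have hBy : ∀ i : ℕ, B (G ((σ ^ i) z)) = G' z := fun i => by
      rw [← hBG _ (hpow i).1, (hpow i).2.1]
    have hGy : ∀ i : ℕ, G ((σ ^ i) z) ∈ UD := fun i => hPG.map (hpow i).1
    have hBnc : ∀ i : ℕ, ¬ ∀ᶠ ζ in 𝓝 (G ((σ ^ i) z)), B ζ = B (G ((σ ^ i) z)) := by
      intro i hc
      have hGc : ContinuousAt G ((σ ^ i) z) :=
        (hPG.dif.differentiableAt (hΩo.mem_nhds (hpow i).1)).continuousAt
      have h1 := hGc.eventually hc
      have h2 : G' =ᶠ[𝓝 ((σ ^ i) z)] fun _ => G' z := by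
        filter_upwards [h1, hΩo.mem_nhds (hpow i).1] with ζ h3 h4
        rw [hBG ζ h4, h3, hBy i]
      apply (hpow i).2.2
      rw [h2.deriv_eq, deriv_const]
    have hle := hTL'.le
    have hx2 : ∀ i : ℕ, ∃ z' : ℕ → ℂ, Tendsto z' U (𝓝 (G ((σ ^ i) z))) ∧
        ∀ᶠ j in (U : Filter ℕ), z' j ∈ UD ∧ BJ f R x (H j) (w j) (w j + 1) (z' j) = G' z := by
      intro i
      refine hHUR U UD (fun j => BJ f R x (H j) (w j) (w j + 1)) B (G ((σ ^ i) z))
        (fun _ => G' z) hFR.le isOpen_ball (hGy i) ?_ hBcv (hBnc i) ?_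
      · filter_upwards [hle] with j hj
        exact (hBJ f R δ e₀ d₀ k₀ hS x hx (H j) (w j) (w j + 1) (Nat.le_succ _) hj).1
      · rw [hBy i]
        exact tendsto_const_nhds
    choose z' hz't hz'e using hx2
    have hdist : ∀ᶠ j in (U : Filter ℕ), ∀ i ∈ Finset.range (f.natDegree + 1),
        ∀ i' ∈ Finset.range (f.natDegree + 1), i < i' → z' i j ≠ z' i' j := by
      rw [Filter.eventually_all_finset]
      intro i hi
      rw [Filter.eventually_all_finset]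
      intro i' hi'
      by_cases hii : i < i'
      · have hi2 : i' ≤ f.natDegree := Nat.lt_succ_iff.1 (Finset.mem_range.1 hi')
        filter_upwards [((hz't i).prodMk_nhds (hz't i')).eventually
          (isOpen_ne_fun continuous_fst continuous_snd |>.mem_nhds (hne i i' hii hi2))] with j hj _
        exact hj
      · exact Eventually.of_forall fun j h => absurd h hii
    have hall : ∀ᶠ j in (U : Filter ℕ), ∀ i ∈ Finset.range (f.natDegree + 1), z' i j ∈ UD ∧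
        BJ f R x (H j) (w j) (w j + 1) (z' i j) = G' z := by
      rw [Filter.eventually_all_finset]
      exact fun i _ => hz'e i
    obtain ⟨j, hj1, hj2, hj3⟩ := (hdist.and (hall.and hle)).exists
    obtain ⟨-, -, -, hrel, -⟩ := hBJ f R δ e₀ d₀ k₀ hS x hx (H j) (w j) (w j + 1)
      (Nat.le_succ _) hj3
    have hVD : DD (VC f R (H j - w j) (it f (w j) x)) :=
      (hVCF f R hS.deg ⟨hS.R1, hS.esc⟩ (H j - w j) (it f (w j) x)
        (hS.Jv _ (eIDX_J hS hx _) _)).1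
    have hmem : it f (w j) x ∈ VC f R (H j - w j) (it f (w j) x) :=
      (hVCF f R hS.deg ⟨hS.R1, hS.esc⟩ (H j - w j) (it f (w j) x)
        (hS.Jv _ (eIDX_J hS hx _) _)).2.1
    obtain ⟨hRM, -⟩ := (hTDF _ hVD).2.2 _ hmem
    have hP : ∀ i ∈ Finset.range (f.natDegree + 1),
        f.eval (rm (VC f R (H j - w j) (it f (w j) x)) (it f (w j) x) (z' i j)) =
          rm (VC f R (H j - (w j + 1)) (it f (w j + 1) x)) (it f (w j + 1) x) (G' z) := by
      intro i hi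
      have h := hrel (z' i j) (hj2 i hi).1
      rw [(hj2 i hi).2, Nat.add_sub_cancel_left] at h
      rw [h]
      rfl
    have hPinj : Set.InjOn (fun i : ℕ => rm (VC f R (H j - w j) (it f (w j) x)) (it f (w j) x)
        (z' i j)) (Finset.range (f.natDegree + 1) : Finset ℕ) := by
      intro i hi i' hi' he
      have hi1 := Finset.mem_coe.1 hi
      have hi2 := Finset.mem_coe.1 hi'
      have h := hRM.inj (hj2 i hi1).1 (hj2 i' hi2).1 he
      rcases lt_trichotomy i i' with hlt | heq | hgt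
      · exact absurd h (hj1 i hi1 i' hi2 hlt)
      · exact heq
      · exact absurd h.symm (hj1 i' hi2 i hi1 hgt)
    set c : ℂ := rm (VC f R (H j - (w j + 1)) (it f (w j + 1) x)) (it f (w j + 1) x) (G' z) with hc
    have hz0 : f - Polynomial.C c = 0 := by
      refine Polynomial.eq_zero_of_natDegree_lt_card_of_eval_eq_zero' (f - Polynomial.C c)
        ((Finset.range (f.natDegree + 1)).image (fun i : ℕ =>
          rm (VC f R (H j - w j) (it f (w j) x)) (it f (w j) x) (z' i j))) ?_ ?_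
      · intro y hy
        obtain ⟨i, hi, rfl⟩ := Finset.mem_image.1 hy
        rw [Polynomial.eval_sub, Polynomial.eval_C, hP i hi, sub_self]
      · rw [Finset.card_image_of_injOn hPinj, Finset.card_range]
        exact Nat.lt_succ_of_le (Polynomial.natDegree_sub_C.le)
    have hd := hS.deg
    rw [sub_eq_zero.1 hz0, Polynomial.natDegree_C] at hd
    omega

end PL
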